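import Pool.Agent.K7.H20.AW.Defs

/-!
# Two-generator groups for the uniform word problem of Artin groups

Definitions used in the statement of `MP_a1ec0a_al.UniversalTwoGenerators`.
-/

set_option autoImplicit false

namespace Pool.Agent.Run7.H478.UG

open Pool.Agent.K7.H20.AW

/-- The entry `1` is not allowed off the diagonal of a Coxeter matrix; it is read as `0`, which in
Mathlib stands for infinity. -/
def label (v : ℕ) : ℕ := if v = 1 then 0 else v

/-- The off-diagonal entry at `i`, `j` of the Coxeter matrix with the list `L`: the number found in `L`
at the place `pair (min i j) (max i j)` (pairing function of Mathlib; the number is `0` when the list is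
too short) is the index of the entry in the list of labels `lam 0, lam 1, …`. -/
def entry (lam : ℕ → ℕ) (L : List ℕ) (i j : ℕ) : ℕ :=
  label (lam (L.getD (Nat.pair (min i j) (max i j)) 0))

/-- The Coxeter matrix with `c.1` rows given by the list `c.2`. -/
def matrixOf (lam : ℕ → ℕ) (c : ℕ × List ℕ) : CoxeterMatrix (Fin c.1) where
  M := Matrix.of fun i j => if i = j then 1 else entry lam c.2 i j
  isSymm := by
    ext i j
    simp only [Matrix.transpose_apply, Matrix.of_apply, entry, min_comm, max_comm, eq_comm]
  diagonal i := by simp
  off_diagonal i j h := by
    simp only [Matrix.of_apply, if_neg h, entry, label]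
    split_ifs with h1
    · exact zero_ne_one
    · exact h1

/-- The element of the Artin group with the code `c` named by the letter `(i, b)`: the generator `i`
for `b = true`, its inverse for `b = false`, and `1` if there is no generator `i`. -/
def letter (lam : ℕ → ℕ) (c : ℕ × List ℕ) (l : ℕ × Bool) : ArtinGroup (matrixOf lam c) :=
  if h : l.1 < c.1 then
    (if l.2 then PresentedGroup.of ⟨l.1, h⟩ else (PresentedGroup.of ⟨l.1, h⟩)⁻¹)
  else 1

/-- The uniform word problem of the Artin groups with the labels `lam 0, lam 1, …`: the input is (the
code of) a Coxeter matrix and a word in the generators and their inverses; the question is whether the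
word represents the identity. -/
def UniformWordProblem (lam : ℕ → ℕ) (q : (ℕ × List ℕ) × List (ℕ × Bool)) : Prop :=
  (q.2.map (letter lam q.1)).prod = 1

/-- The sequence `ell 1, ell 2, …` consists of the labels `lam 0, lam 1, …`, and every finite sequence
of such labels occurs in it as a block of consecutive terms. -/
def Rich (lam ell : ℕ → ℕ) : Prop :=
  (∀ d, 0 < d → ∃ v, lam v = ell d) ∧
    ∀ l : List ℕ, ∃ x, 0 < x ∧ ∀ i (h : i < l.length), ell (x + i) = lam l[i]

/-- An explicit sequence in which every finite sequence of natural numbers occurs as a block: the term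
number `b ^ 2 + a` with `a < b` is the term number `a` of the list number `b` in the list of all finite
lists (and `0` if this list is too short). -/
def kappa (d : ℕ) : ℕ := (Denumerable.ofNat (List ℕ) d.unpair.2).getD d.unpair.1 0

/-- The word `t ^ d s t ^ (-d)`, where `s` is the generator `false` and `t` is the generator `true`. -/
def conj (d : ℕ) : FreeGroup Bool :=
  FreeGroup.of true ^ d * FreeGroup.of false * (FreeGroup.of true ^ d)⁻¹

/-- The group with two generators `s`, `t` and the relations
`Π(s, t ^ d s t ^ (-d); ell d) = Π(t ^ d s t ^ (-d), s; ell d)` for `d = 1, 2, 3, …` (for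
`ell d = 0`, infinity, the relation is trivial). -/
abbrev U (ell : ℕ → ℕ) : Type :=
  PresentedGroup {r : FreeGroup Bool | ∃ d : ℕ, 0 < d ∧ r =
    altProd (ell d) (FreeGroup.of false) (conj d) *
      (altProd (ell d) (conj d) (FreeGroup.of false))⁻¹}

/-- The element of `U ell` named by the letter `(x, b)`: the generator `x` for `b = true`, its inverse
for `b = false`. -/
def letterU (ell : ℕ → ℕ) (l : Bool × Bool) : U ell :=
  if l.2 then PresentedGroup.of l.1 else (PresentedGroup.of l.1)⁻¹

/-- The word problem of the group `U ell`. -/
def WordProblemU (ell : ℕ → ℕ) (w : List (Bool × Bool)) : Prop := (w.map (letterU ell)).prod = 1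

end Pool.Agent.Run7.H478.UG
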