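import Pool.Agent.Run7.h478.UG.Defs

/-!
# Rich sequences
-/

set_option autoImplicit false

namespace Pool.Agent.Run7.H478.UG

theorem label_ne_one (v : ℕ) : label v ≠ 1 := by
  unfold label
  split_ifs with h
  · exact zero_ne_one
  · exact h

theorem label_of_ne {v : ℕ} (h : v ≠ 1) : label v = v := if_neg h

theorem Rich.ne_one {lam ell : ℕ → ℕ} (h : Rich lam ell) (hlam : ∀ v, lam v ≠ 1) {d : ℕ}
    (hd : 0 < d) : ell d ≠ 1 := by
  obtain ⟨v, hv⟩ := h.1 d hd
  rw [← hv]
  exact hlam v

theorem entry_comm (lam : ℕ → ℕ) (L : List ℕ) (i j : ℕ) : entry lam L i j = entry lam L j i := by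
  unfold entry
  rw [min_comm, max_comm]

theorem matrixOf_ne {lam : ℕ → ℕ} {c : ℕ × List ℕ} {i j : Fin c.1} (h : i ≠ j) :
    matrixOf lam c i j = entry lam c.2 i j := if_neg h

theorem pair_lt_sq {N i j : ℕ} (hi : i < N) (hj : j < N) : Nat.pair i j < N ^ 2 :=
  (Nat.pair_lt_max_add_one_sq i j).trans_le (Nat.pow_le_pow_left (by omega) 2)

/-- every Coxeter matrix has a code -/
theorem exists_code (n : ℕ) (M : CoxeterMatrix (Fin n)) :
    ∃ L : List ℕ, matrixOf label (n, L) = M := by
  refine ⟨(List.range (n ^ 2)).map fun k =>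
    if h : k.unpair.1 < n ∧ k.unpair.2 < n then M ⟨_, h.1⟩ ⟨_, h.2⟩ else 0, ?_⟩
  have key : ∀ v, v ≠ 1 → label (label v) = v := fun v hv => by
    rw [label_of_ne hv, label_of_ne hv]
  apply CoxeterMatrix.ext
  ext i j
  show (if i = j then 1 else entry label _ i j) = M i j
  split_ifs with hij
  · rw [hij, M.diagonal]
  · unfold entry
    rw [List.getD_eq_getElem?_getD, List.getElem?_map, List.getElem?_range
      (pair_lt_sq (lt_of_le_of_lt (min_le_left _ _) i.2) (max_lt i.2 j.2))]
    simp only [Option.map_some, Option.getD_some, Nat.unpair_pair]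
    rw [dif_pos ⟨lt_of_le_of_lt (min_le_left _ _) i.2, max_lt i.2 j.2⟩]
    rcases le_total (i : ℕ) j with h | h
    · have e1 : (⟨min (i : ℕ) j, lt_of_le_of_lt (min_le_left _ _) i.2⟩ : Fin n) = i :=
        Fin.ext (min_eq_left h)
      have e2 : (⟨max (i : ℕ) j, max_lt i.2 j.2⟩ : Fin n) = j := Fin.ext (max_eq_right h)
      rw [e1, e2]
      exact key _ (M.off_diagonal _ _ hij)
    · have e1 : (⟨min (i : ℕ) j, lt_of_le_of_lt (min_le_left _ _) i.2⟩ : Fin n) = j :=
        Fin.ext (min_eq_right h)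
      have e2 : (⟨max (i : ℕ) j, max_lt i.2 j.2⟩ : Fin n) = i := Fin.ext (max_eq_left h)
      rw [e1, e2, M.symmetric]
      exact key _ (M.off_diagonal _ _ hij)

theorem length_le_encode (l : List ℕ) : l.length ≤ Encodable.encode l := by
  induction l with
  | nil => simp
  | cons a l ih =>
    rw [List.length_cons, Encodable.encode_list_cons]
    exact Nat.succ_le_succ (ih.trans (Nat.right_le_pair _ _))

theorem rich_kappa (lam : ℕ → ℕ) : Rich lam (fun d => lam (kappa d)) := by
  refine ⟨fun d _ => ⟨kappa d, rfl⟩, fun l => ?_⟩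
  rcases l.eq_nil_or_concat with rfl | ⟨l', a, rfl⟩
  · exact ⟨1, Nat.one_pos, fun i h => absurd h (by simp)⟩
  · set l := l'.concat a with hl
    have hlen : 0 < l.length := by rw [hl]; simp
    have hb : l.length ≤ Encodable.encode l := length_le_encode l
    refine ⟨Encodable.encode l * Encodable.encode l, by nlinarith, fun i h => ?_⟩
    have h1 : Encodable.encode l * Encodable.encode l + i = Nat.pair i (Encodable.encode l) := by
      unfold Nat.pair
      rw [if_pos (lt_of_lt_of_le h hb)]
    show lam (kappa _) = _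
    unfold kappa
    rw [h1, Nat.unpair_pair, Denumerable.ofNat_encode]
    congr 1
    exact List.getD_eq_getElem _ _ h

section positions

variable {lam ell : ℕ → ℕ}

/-- one more generator -/
theorem next_pos (hr : Rich lam ell) (P : List ℕ) (hP : P.Nodup) (v : ℕ → ℕ)
    (hv : ∀ i, ∃ y, lam y = v i) :
    ∃ q, ∀ i (h : i < P.length), P[i] < q ∧ ell (q - P[i]) = v i := by
  classical
  choose y hy using hv
  obtain ⟨m, hm⟩ : ∃ m, ∀ p ∈ P, p ≤ m := ⟨P.sum, fun p hp => List.le_sum_of_mem hp⟩
  let l : List ℕ := (List.range (m + 1)).map fun k => y (P.idxOf (m - k))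
  obtain ⟨x, hx, hl⟩ := hr.2 l
  refine ⟨x + m, fun i h => ?_⟩
  have h1 : P[i] ≤ m := hm _ (List.getElem_mem h)
  refine ⟨by omega, ?_⟩
  have h2 : m - P[i] < l.length := by simp only [l, List.length_map, List.length_range]; omega
  have h3 := hl (m - P[i]) h2
  rw [show x + m - P[i] = x + (m - P[i]) by omega, h3]
  simp only [l, List.getElem_map, List.getElem_range]
  rw [show m - (m - P[i]) = P[i] by omega, hP.idxOf_getElem i h]
  exact hy i

/-- positions for an infinite matrix -/
theorem exists_pos (hr : Rich lam ell) (m : ℕ → ℕ → ℕ) (hm : ∀ i j, ∃ y, lam y = m i j) :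
    ∃ a : ℕ → ℕ, ∀ i j, i < j → a i < a j ∧ ell (a j - a i) = m i j := by
  classical
  have h : ∀ P : List ℕ, ∃ q, P.Nodup →
      ∀ i (h : i < P.length), P[i] < q ∧ ell (q - P[i]) = m i P.length := by
    intro P
    by_cases hP : P.Nodup
    · obtain ⟨q, hq⟩ := next_pos hr P hP (fun i => m i P.length) (fun i => hm i _)
      exact ⟨q, fun _ => hq⟩
    · exact ⟨0, fun h => absurd h hP⟩
  choose nx hnx using h
  let P : ℕ → List ℕ := fun n => Nat.rec [] (fun _ l => l ++ [nx l]) n
  have P0 : P 0 = [] := rfl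
  have PS : ∀ n, P (n + 1) = P n ++ [nx (P n)] := fun n => rfl
  let a : ℕ → ℕ := fun n => nx (P n)
  have hPa : ∀ n, P n = (List.range n).map a := by
    intro n
    induction n with
    | zero => rfl
    | succ n ih => rw [PS, List.range_succ, List.map_append, ← ih]; rfl
  have hlen : ∀ n, (P n).length = n := by
    intro n
    rw [hPa, List.length_map, List.length_range]
  have hnd : ∀ n, (P n).Nodup := by
    intro n
    induction n with
    | zero => rw [P0]; exact List.nodup_nil
    | succ n ih =>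
      rw [PS, List.nodup_append]
      refine ⟨ih, by simp, ?_⟩
      intro x hx y hy
      rw [List.mem_singleton] at hy
      obtain ⟨i, hi, rfl⟩ := List.getElem_of_mem hx
      rw [hy]
      exact (hnx (P n) ih i hi).1.ne
  refine ⟨a, fun i j hij => ?_⟩
  have h1 : i < (P j).length := by rw [hlen]; exact hij
  have h2 := hnx (P j) (hnd j) i h1
  have h3 : (P j)[i] = a i := by
    simp only [hPa, List.getElem_map, List.getElem_range]
  rw [h3, hlen] at h2
  exact h2

/-- positions for a countable Coxeter matrix -/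
theorem exists_pos_matrix (hr : Rich lam ell) {S : Type*} [Countable S] (M : CoxeterMatrix S)
    (hM : ∀ i j, i ≠ j → ∃ y, lam y = M i j) :
    ∃ a : S → ℕ, Function.Injective a ∧
      ∀ i j, i ≠ j → M i j = ell ((a i : ℤ) - a j).natAbs := by
  classical
  obtain ⟨e, he⟩ := exists_injective_nat S
  have h0 : ∀ i j, ∃ v, (∃ y, lam y = v) ∧ ∀ s t, s ≠ t → e s = i → e t = j → v = M s t := by
    intro i j
    by_cases h : ∃ s t, s ≠ t ∧ e s = i ∧ e t = j
    · obtain ⟨s, t, hst, rfl, rfl⟩ := h
      refine ⟨M s t, hM s t hst, fun s' t' _ h1 h2 => ?_⟩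
      rw [he h1, he h2]
    · exact ⟨lam 0, ⟨0, rfl⟩, fun s t hst h1 h2 => absurd ⟨s, t, hst, h1, h2⟩ h⟩
  choose m hm' hm0 using h0
  have hm : ∀ s t, s ≠ t → m (e s) (e t) = M s t := fun s t hst => hm0 _ _ s t hst rfl rfl
  obtain ⟨a, ha⟩ := exists_pos hr m hm'
  have hmono : StrictMono a := fun i j h => (ha i j h).1
  refine ⟨fun s => a (e s), hmono.injective.comp he, fun s t hst => ?_⟩
  have hne : e s ≠ e t := fun h => hst (he h)
  rcases lt_or_gt_of_ne hne with h | h
  · obtain ⟨h1, h2⟩ := ha _ _ h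
    rw [show ((a (e s) : ℤ) - a (e t)).natAbs = a (e t) - a (e s) by omega, h2, hm s t hst]
  · obtain ⟨h1, h2⟩ := ha _ _ h
    rw [show ((a (e s) : ℤ) - a (e t)).natAbs = a (e s) - a (e t) by omega, h2,
      hm t s (Ne.symm hst), M.symmetric]

end positions

end Pool.Agent.Run7.H478.UG
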