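import Pool.Agent.K7.H20.AW.Fin
import Pool.Agent.Run7.h478.UG.Num

/-!
# Embedding Artin groups in the two-generator group
-/

set_option autoImplicit false

namespace Pool.Agent.Run7.H478.UG

open Pool.Agent.K7.H20.AW Pool.Agent.K7.H87.FJ6 Pool.Agent.Helper741

theorem map_altProd {G H : Type*} [Monoid G] [Monoid H] (f : G →* H) (m : ℕ) :
    ∀ a b : G, f (altProd m a b) = altProd m (f a) (f b) := by
  induction m with
  | zero => intro a b; exact map_one f
  | succ m ih => intro a b; rw [altProd, altProd, map_mul, ih]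

section artin

variable {A B : Type*} {G : Type*} [Group G]

theorem aRel (M : CoxeterMatrix B) (i j : B) :
    altProd (M i j) (PresentedGroup.of i : ArtinGroup M) (PresentedGroup.of j) =
      altProd (M i j) (PresentedGroup.of j) (PresentedGroup.of i) := by
  have h : (PresentedGroup.mk {r : FreeGroup B | ∃ s t : B, r =
      altProd (M s t) (FreeGroup.of s) (FreeGroup.of t) *
        (altProd (M s t) (FreeGroup.of t) (FreeGroup.of s))⁻¹})
      (altProd (M i j) (FreeGroup.of i) (FreeGroup.of j) *
        (altProd (M i j) (FreeGroup.of j) (FreeGroup.of i))⁻¹) = 1 :=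
    PresentedGroup.one_of_mem ⟨i, j, rfl⟩
  rw [map_mul, map_inv, mul_inv_eq_one, map_altProd, map_altProd] at h
  exact h

/-- the universal property -/
def aLift (M : CoxeterMatrix B) (f : B → G)
    (hf : ∀ i j, altProd (M i j) (f i) (f j) = altProd (M i j) (f j) (f i)) :
    ArtinGroup M →* G :=
  PresentedGroup.toGroup (f := f) (by
    rintro _ ⟨i, j, rfl⟩
    rw [map_mul, map_inv, map_altProd, map_altProd, FreeGroup.lift_apply_of,
      FreeGroup.lift_apply_of, hf, mul_inv_cancel])

theorem aLift_of (M : CoxeterMatrix B) (f : B → G)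
    (hf : ∀ i j, altProd (M i j) (f i) (f j) = altProd (M i j) (f j) (f i)) (i : B) :
    aLift M f hf (PresentedGroup.of i) = f i := by
  simp [aLift]

theorem aExt {M : CoxeterMatrix B} {f f' : ArtinGroup M →* G}
    (h : ∀ i, f (PresentedGroup.of i) = f' (PresentedGroup.of i)) : f = f' :=
  PresentedGroup.ext h

/-- the inclusion of a standard parabolic subgroup -/
def aInc (M : CoxeterMatrix B) (ι : A → B) (hι : Function.Injective ι) :
    ArtinGroup (pull M ι hι) →* ArtinGroup M :=
  aLift _ (fun x => PresentedGroup.of (ι x)) (fun i j => aRel M (ι i) (ι j))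

theorem aInc_of (M : CoxeterMatrix B) (ι : A → B) (hι : Function.Injective ι) (x : A) :
    aInc M ι hι (PresentedGroup.of x) = PresentedGroup.of (ι x) := aLift_of _ _ _ _

theorem toArt_of (M : CoxeterMatrix B) (x : B) :
    toArt M (PresentedGroup.of x) = Sh.gen M (z0 B) x := by
  simp [toArt, g]

theorem ofArt_gen (M : CoxeterMatrix B) (x : B) :
    ofArt M (Sh.gen M (z0 B) x) = PresentedGroup.of x := Sh.lift_gen _ _ _ _

theorem ofArt_toArt (M : CoxeterMatrix B) (u : ArtinGroup M) : ofArt M (toArt M u) = u := by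
  have h : (ofArt M).comp (toArt M) = MonoidHom.id _ := by
    apply aExt
    intro i
    rw [MonoidHom.comp_apply, toArt_of, ofArt_gen]
    rfl
  exact DFunLike.congr_fun h u

/-- the finite case -/
theorem aInc_injective_fin [Finite B] (M : CoxeterMatrix B) (ι : A → B)
    (hι : Function.Injective ι) : Function.Injective (aInc M ι hι) := by
  refine (injective_iff_map_eq_one _).2 fun u hu => ?_
  have h1 : (toArt M).comp (aInc M ι hι) = (inc M (z0 B) ι hι).comp (toArt (pull M ι hι)) := by
    apply aExt
    intro i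
    rw [MonoidHom.comp_apply, aInc_of, toArt_of, MonoidHom.comp_apply, toArt_of]
    exact (inc_gen M (z0 B) ι hι i).symm
  have h2 := DFunLike.congr_fun h1 u
  rw [MonoidHom.comp_apply, hu, map_one, MonoidHom.comp_apply] at h2
  have h3 : toArt (pull M ι hι) u = 1 := by
    apply inc_injective (adm0 M) ι hι
    rw [map_one]
    exact h2.symm
  rw [← ofArt_toArt _ u, h3, map_one]

section compact

variable [DecidableEq B] (M : CoxeterMatrix B)

/-- the generators outside the finite set `F` are sent to `1` -/
def ret (F : Finset B) : FreeGroup B →*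
    ArtinGroup (pull M (Subtype.val : {b // b ∈ F} → B) Subtype.val_injective) :=
  FreeGroup.lift fun b => if h : b ∈ F then PresentedGroup.of ⟨b, h⟩ else 1

theorem ret_of {F : Finset B} {b : B} (h : b ∈ F) :
    ret M F (FreeGroup.of b) = PresentedGroup.of ⟨b, h⟩ := by
  unfold ret
  rw [FreeGroup.lift_apply_of, dif_pos h]

/-- the words that become trivial for all large finite sets -/
def Ker : Subgroup (FreeGroup B) where
  carrier := {v | ∃ F₀ : Finset B, ∀ F : Finset B, F₀ ⊆ F → ret M F v = 1}
  mul_mem' := by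
    rintro v w ⟨F, hF⟩ ⟨F', hF'⟩
    exact ⟨F ∪ F', fun G hG => by
      rw [map_mul, hF G (Finset.union_subset_left hG), hF' G (Finset.union_subset_right hG),
        one_mul]⟩
  one_mem' := ⟨∅, fun _ _ => map_one _⟩
  inv_mem' := by
    rintro v ⟨F, hF⟩
    exact ⟨F, fun G hG => by rw [map_inv, hF G hG, inv_one]⟩

theorem Ker_normal : (Ker M).Normal :=
  ⟨by
    rintro v ⟨F, hF⟩ g
    exact ⟨F, fun G hG => by rw [map_mul, map_mul, hF G hG, mul_one, map_inv, mul_inv_cancel]⟩⟩

theorem mem_Ker {v : FreeGroup B} (h : (PresentedGroup.mk {r : FreeGroup B | ∃ s t : B, r =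
      altProd (M s t) (FreeGroup.of s) (FreeGroup.of t) *
        (altProd (M s t) (FreeGroup.of t) (FreeGroup.of s))⁻¹}) v = 1) : v ∈ Ker M := by
  have h1 := (QuotientGroup.eq_one_iff v).1 h
  have := Ker_normal M
  refine Subgroup.normalClosure_le_normal ?_ h1
  rintro _ ⟨i, j, rfl⟩
  refine ⟨{i, j}, fun F hF => ?_⟩
  have hi : i ∈ F := hF (by simp)
  have hj : j ∈ F := hF (by simp)
  rw [map_mul, map_inv, map_altProd, map_altProd, ret_of M hi, ret_of M hj]
  exact mul_inv_eq_one.2
    (aRel (pull M (Subtype.val : {b // b ∈ F} → B) Subtype.val_injective) ⟨i, hi⟩ ⟨j, hj⟩)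

end compact

/-- van der Lek's theorem for a finite set of generators of an infinite Coxeter matrix -/
theorem aInc_injective_finite [Finite A] (M : CoxeterMatrix B) (ι : A → B)
    (hι : Function.Injective ι) : Function.Injective (aInc M ι hι) := by
  classical
  have := Fintype.ofFinite A
  refine (injective_iff_map_eq_one _).2 fun u hu => ?_
  obtain ⟨w, rfl⟩ := PresentedGroup.mk_surjective _ u
  have h1 : (aInc M ι hι).comp (PresentedGroup.mk _) =
      (PresentedGroup.mk _).comp (FreeGroup.map ι) := by
    apply FreeGroup.ext_hom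
    intro x
    rw [MonoidHom.comp_apply, MonoidHom.comp_apply, FreeGroup.map.of]
    exact aInc_of M ι hι x
  have h2 := DFunLike.congr_fun h1 w
  rw [MonoidHom.comp_apply, hu, MonoidHom.comp_apply] at h2
  obtain ⟨F₀, hF₀⟩ := mem_Ker M h2.symm
  let F : Finset B := F₀ ∪ Finset.univ.image ι
  have hF : ∀ x, ι x ∈ F := fun x => Finset.mem_union_right _ (Finset.mem_image_of_mem _ (by simp))
  let κ : A → {b // b ∈ F} := fun x => ⟨ι x, hF x⟩
  have hκ : Function.Injective κ := fun x y h => hι (congrArg Subtype.val h)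
  have h3 : (ret M F).comp (FreeGroup.map ι) =
      (aInc (pull M (Subtype.val : {b // b ∈ F} → B) Subtype.val_injective) κ hκ).comp
        (PresentedGroup.mk _) := by
    apply FreeGroup.ext_hom
    intro x
    rw [MonoidHom.comp_apply, MonoidHom.comp_apply, FreeGroup.map.of, ret_of M (hF x)]
    exact (aInc_of (pull M (Subtype.val : {b // b ∈ F} → B) Subtype.val_injective) κ hκ x).symm
  have h4 := DFunLike.congr_fun h3 w
  rw [MonoidHom.comp_apply, MonoidHom.comp_apply, hF₀ F Finset.subset_union_left] at h4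
  have h5 := aInc_injective_fin _ κ hκ (h4.symm.trans (map_one _).symm)
  exact h5

/-- every word has finite support -/
theorem exists_support (w : FreeGroup A) : ∃ F : Finset A, ∀ F' : Finset A, F ⊆ F' →
    ∃ w' : FreeGroup {a // a ∈ F'}, FreeGroup.map Subtype.val w' = w := by
  classical
  induction w using FreeGroup.induction_on with
  | C1 => exact ⟨∅, fun _ _ => ⟨1, map_one _⟩⟩
  | of x =>
    refine ⟨{x}, fun F' h => ⟨FreeGroup.of ⟨x, h (by simp)⟩, ?_⟩⟩
    rw [FreeGroup.map.of]
  | inv_of x ih =>
    obtain ⟨F, hF⟩ := ih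
    refine ⟨F, fun F' h => ?_⟩
    obtain ⟨w', hw'⟩ := hF F' h
    exact ⟨w'⁻¹, by rw [map_inv, hw']⟩
  | mul x y ihx ihy =>
    obtain ⟨F, hF⟩ := ihx
    obtain ⟨G, hG⟩ := ihy
    refine ⟨F ∪ G, fun F' h => ?_⟩
    obtain ⟨v, hv⟩ := hF F' (Finset.union_subset_left h)
    obtain ⟨v', hv'⟩ := hG F' (Finset.union_subset_right h)
    exact ⟨v * v', by rw [map_mul, hv, hv']⟩

/-- van der Lek's theorem for infinite Coxeter matrices -/
theorem aInc_injective (M : CoxeterMatrix B) (ι : A → B)
    (hι : Function.Injective ι) : Function.Injective (aInc M ι hι) := by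
  classical
  refine (injective_iff_map_eq_one _).2 fun u hu => ?_
  obtain ⟨w, rfl⟩ := PresentedGroup.mk_surjective _ u
  obtain ⟨F, hF⟩ := exists_support w
  obtain ⟨w', rfl⟩ := hF F subset_rfl
  have h1 : (aInc M ι hι).comp ((PresentedGroup.mk _).comp
      (FreeGroup.map (Subtype.val : {a // a ∈ F} → A))) =
      (aInc M (ι ∘ Subtype.val) (hι.comp Subtype.val_injective)).comp (PresentedGroup.mk _) := by
    apply FreeGroup.ext_hom
    intro x
    rw [MonoidHom.comp_apply, MonoidHom.comp_apply, MonoidHom.comp_apply, FreeGroup.map.of]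
    exact (aInc_of M ι hι x).trans (aInc_of M (ι ∘ Subtype.val) _ x).symm
  have h2 := DFunLike.congr_fun h1 w'
  rw [MonoidHom.comp_apply, MonoidHom.comp_apply, MonoidHom.comp_apply, hu] at h2
  have h3 := aInc_injective_finite M (ι ∘ Subtype.val) (hι.comp Subtype.val_injective)
    (h2.symm.trans (map_one _).symm)
  have h4 : (PresentedGroup.mk _).comp (FreeGroup.map (Subtype.val : {a // a ∈ F} → A)) =
      (aInc (pull M ι hι) (Subtype.val : {a // a ∈ F} → A) Subtype.val_injective).comp
        (PresentedGroup.mk _) := by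
    apply FreeGroup.ext_hom
    intro x
    rw [MonoidHom.comp_apply, MonoidHom.comp_apply, FreeGroup.map.of]
    exact (aInc_of (pull M ι hι) Subtype.val Subtype.val_injective x).symm
  have h5 := DFunLike.congr_fun h4 w'
  rw [MonoidHom.comp_apply, MonoidHom.comp_apply] at h5
  refine h5.trans ?_
  exact (congrArg _ h3).trans (map_one _)

end artin

section integers

variable (ell : ℕ → ℕ)

/-- the Coxeter matrix on the integers -/
def MZ : CoxeterMatrix ℤ where
  M := Matrix.of fun i j => if i = j then 1 else label (ell (i - j).natAbs)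
  isSymm := by
    ext i j
    simp only [Matrix.transpose_apply, Matrix.of_apply, eq_comm (a := j)]
    rw [show (j - i).natAbs = (i - j).natAbs by omega]
  diagonal i := by simp
  off_diagonal i j h := by
    simp only [Matrix.of_apply, if_neg h]
    exact label_ne_one _

variable {ell}

theorem MZ_ne {i j : ℤ} (h : i ≠ j) : MZ ell i j = label (ell (i - j).natAbs) := if_neg h

theorem MZ_shift (k i j : ℤ) : MZ ell (i + k) (j + k) = MZ ell i j := by
  by_cases h : i = j
  · rw [h, (MZ ell).diagonal, (MZ ell).diagonal]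
  · rw [MZ_ne h, MZ_ne (fun h' => h (by omega))]
    congr 2
    omega

/-- the shift -/
def sh (k : ℤ) : ArtinGroup (MZ ell) →* ArtinGroup (MZ ell) :=
  aLift (MZ ell) (fun i => PresentedGroup.of (i + k)) (fun i j => by
    rw [← MZ_shift k i j]
    exact aRel (MZ ell) _ _)

theorem sh_of (k i : ℤ) : sh (ell := ell) k (PresentedGroup.of i) = PresentedGroup.of (i + k) :=
  aLift_of _ _ _ _

theorem sh_sh {k l : ℤ} (h : k + l = 0) :
    (sh (ell := ell) k).comp (sh l) = MonoidHom.id _ := by
  apply aExt
  intro i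
  rw [MonoidHom.comp_apply, sh_of, sh_of, MonoidHom.id_apply]
  congr 1
  omega

variable (ell) in
/-- the shift by one -/
def sigma : MulAut (ArtinGroup (MZ ell)) :=
  MonoidHom.toMulEquiv (sh 1) (sh (-1)) (sh_sh (by norm_num)) (sh_sh (by norm_num))

theorem sigma_of (i : ℤ) : sigma ell (PresentedGroup.of i) = PresentedGroup.of (i + 1) := sh_of 1 i

theorem sigma_pow (d : ℕ) : ∀ i : ℤ, (sigma ell ^ d) (PresentedGroup.of i) =
    (PresentedGroup.of (i + d) : ArtinGroup (MZ ell)) := by
  induction d with
  | zero => intro i; simp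
  | succ d ih =>
    intro i
    rw [pow_succ, MulAut.mul_apply, sigma_of, ih]
    congr 1
    push_cast
    ring

variable (ell) in
/-- the semidirect product with the shift -/
abbrev SD : Type :=
  ArtinGroup (MZ ell) ⋊[zpowersHom (MulAut (ArtinGroup (MZ ell))) (sigma ell)] Multiplicative ℤ

/-- the images of the generators -/
def genSD (b : Bool) : SD ell :=
  if b then SemidirectProduct.inr (Multiplicative.ofAdd 1)
  else SemidirectProduct.inl (PresentedGroup.of 0)

theorem genSD_conj (d : ℕ) : genSD (ell := ell) true ^ d * genSD false * (genSD true ^ d)⁻¹ =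
    SemidirectProduct.inl (PresentedGroup.of (d : ℤ)) := by
  have h1 : genSD (ell := ell) true = SemidirectProduct.inr (Multiplicative.ofAdd 1) := rfl
  have h2 : genSD (ell := ell) false = SemidirectProduct.inl (PresentedGroup.of 0) := rfl
  rw [h1, h2, ← map_pow, ← map_inv, ← SemidirectProduct.inl_aut, map_pow]
  congr 1
  have h3 : (zpowersHom (MulAut (ArtinGroup (MZ ell))) (sigma ell)) (Multiplicative.ofAdd 1) =
      sigma ell := by
    simp
  rw [h3, sigma_pow]
  congr 1
  omega

theorem lift_conj {G : Type*} [Group G] (f : Bool → G) (d : ℕ) :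
    FreeGroup.lift f (conj d) = f true ^ d * f false * (f true ^ d)⁻¹ := by
  unfold conj
  simp

/-- the universal property of `U` -/
def uLift {G : Type*} [Group G] (f : Bool → G)
    (hf : ∀ d : ℕ, 0 < d → altProd (ell d) (f false) (f true ^ d * f false * (f true ^ d)⁻¹) =
      altProd (ell d) (f true ^ d * f false * (f true ^ d)⁻¹) (f false)) : U ell →* G :=
  PresentedGroup.toGroup (f := f) (by
    rintro _ ⟨d, hd, rfl⟩
    rw [map_mul, map_inv, map_altProd, map_altProd, lift_conj, FreeGroup.lift_apply_of, hf d hd,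
      mul_inv_cancel])

theorem uLift_of {G : Type*} [Group G] (f : Bool → G)
    (hf : ∀ d : ℕ, 0 < d → altProd (ell d) (f false) (f true ^ d * f false * (f true ^ d)⁻¹) =
      altProd (ell d) (f true ^ d * f false * (f true ^ d)⁻¹) (f false)) (b : Bool) :
    uLift (ell := ell) f hf (PresentedGroup.of b) = f b := by
  simp [uLift]

/-- the action of `U` -/
def Phi (hne : ∀ d, 0 < d → ell d ≠ 1) : U ell →* SD ell :=
  uLift genSD (fun d hd => by
    rw [genSD_conj]
    have h2 : genSD (ell := ell) false = SemidirectProduct.inl (PresentedGroup.of 0) := rfl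
    rw [h2, ← map_altProd, ← map_altProd]
    congr 1
    have h3 : MZ ell 0 d = ell d := by
      rw [MZ_ne (by omega), show ((0 : ℤ) - d).natAbs = d by omega, label_of_ne (hne d hd)]
    rw [← h3]
    exact aRel (MZ ell) 0 d)

variable (ell) in
/-- the element `t ^ p s t ^ (-p)` of `U` -/
def gU (p : ℕ) : U ell :=
  PresentedGroup.of true ^ p * PresentedGroup.of false * (PresentedGroup.of true ^ p)⁻¹

theorem Phi_gU (hne : ∀ d, 0 < d → ell d ≠ 1) (p : ℕ) :
    Phi hne (gU ell p) = SemidirectProduct.inl (PresentedGroup.of (p : ℤ)) := by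
  unfold gU
  rw [map_mul, map_mul, map_inv, map_pow]
  have h1 : ∀ b, Phi hne (PresentedGroup.of b) = genSD b := fun b => uLift_of _ _ b
  rw [h1, h1, genSD_conj]

theorem uRel {d : ℕ} (hd : 0 < d) : altProd (ell d) (gU ell 0) (gU ell d) =
    altProd (ell d) (gU ell d) (gU ell 0) := by
  have h : (PresentedGroup.mk {r : FreeGroup Bool | ∃ d : ℕ, 0 < d ∧ r =
      altProd (ell d) (FreeGroup.of false) (conj d) *
        (altProd (ell d) (conj d) (FreeGroup.of false))⁻¹})
      (altProd (ell d) (FreeGroup.of false) (conj d) *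
        (altProd (ell d) (conj d) (FreeGroup.of false))⁻¹) = 1 :=
    PresentedGroup.one_of_mem ⟨d, hd, rfl⟩
  rw [map_mul, map_inv, mul_inv_eq_one, map_altProd, map_altProd] at h
  have h0 : gU ell 0 = PresentedGroup.of false := by
    unfold gU
    rw [pow_zero, one_mul, inv_one, mul_one]
  rw [h0]
  have h1 : (PresentedGroup.mk {r : FreeGroup Bool | ∃ d : ℕ, 0 < d ∧ r =
      altProd (ell d) (FreeGroup.of false) (conj d) *
        (altProd (ell d) (conj d) (FreeGroup.of false))⁻¹}) (conj d) = gU ell d := by
    unfold conj gU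
    rw [map_mul, map_mul, map_inv, map_pow]
    rfl
  rw [h1] at h
  exact h

theorem gU_add (p d : ℕ) : gU ell (p + d) =
    MulAut.conj (PresentedGroup.of true ^ p : U ell) (gU ell d) := by
  unfold gU
  rw [MulAut.conj_apply]
  group

theorem gU_rel {p q : ℕ} (h : p < q) : altProd (ell (q - p)) (gU ell p) (gU ell q) =
    altProd (ell (q - p)) (gU ell q) (gU ell p) := by
  have h1 : gU ell p = MulAut.conj (PresentedGroup.of true ^ p : U ell) (gU ell 0) := gU_add p 0
  have h2 : gU ell q = MulAut.conj (PresentedGroup.of true ^ p : U ell) (gU ell (q - p)) := by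
    rw [← gU_add]
    congr 1
    omega
  have h3 := congrArg (MulAut.conj (PresentedGroup.of true ^ p : U ell))
    (uRel (ell := ell) (d := q - p) (by omega))
  have h4 : ∀ a b : U ell,
      MulAut.conj (PresentedGroup.of true ^ p : U ell) (altProd (ell (q - p)) a b) =
      altProd (ell (q - p)) (MulAut.conj (PresentedGroup.of true ^ p : U ell) a)
        (MulAut.conj (PresentedGroup.of true ^ p : U ell) b) := fun a b =>
    map_altProd (MulAut.conj (PresentedGroup.of true ^ p : U ell)).toMonoidHom _ a b
  rw [h4, h4, ← h1, ← h2] at h3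
  exact h3

theorem gU_rel' {p q : ℕ} (h : p ≠ q) :
    altProd (ell ((p : ℤ) - q).natAbs) (gU ell p) (gU ell q) =
    altProd (ell ((p : ℤ) - q).natAbs) (gU ell q) (gU ell p) := by
  rcases lt_or_gt_of_ne h with h | h
  · rw [show ((p : ℤ) - q).natAbs = q - p by omega]
    exact gU_rel h
  · rw [show ((p : ℤ) - q).natAbs = p - q by omega]
    exact (gU_rel h).symm

section emb

variable {S : Type*} (M : CoxeterMatrix S) (a : S → ℕ) (ha : Function.Injective a)
  (h : ∀ i j, i ≠ j → M i j = ell ((a i : ℤ) - a j).natAbs)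

/-- the embedding -/
def emb : ArtinGroup M →* U ell :=
  aLift M (fun i => gU ell (a i)) (fun i j => by
    by_cases hij : i = j
    · rw [hij]
    · rw [h i j hij]
      exact gU_rel' (fun h' => hij (ha h')))

theorem emb_of (i : S) : emb M a ha h (PresentedGroup.of i) = gU ell (a i) := aLift_of _ _ _ _

theorem emb_injective (hne : ∀ d, 0 < d → ell d ≠ 1) : Function.Injective (emb M a ha h) := by
  have hb : Function.Injective (fun i => (a i : ℤ)) := fun i j hij => ha (by simpa using hij)
  have hM : M = pull (MZ ell) (fun i => (a i : ℤ)) hb := by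
    apply CoxeterMatrix.ext
    ext i j
    show M i j = MZ ell (a i) (a j)
    by_cases hij : i = j
    · rw [hij, M.diagonal, (MZ ell).diagonal]
    · have h1 : ((a i : ℤ) - a j).natAbs ≠ 0 := by
        have : (a i : ℤ) ≠ a j := hb.ne hij
        omega
      rw [h i j hij, MZ_ne (fun h' => hij (hb h')), label_of_ne (hne _ (Nat.pos_of_ne_zero h1))]
  subst hM
  have h1 : (Phi hne).comp (emb _ a ha h) =
      SemidirectProduct.inl.comp (aInc (MZ ell) (fun i => (a i : ℤ)) hb) := by
    apply aExt
    intro i
    rw [MonoidHom.comp_apply, emb_of, Phi_gU, MonoidHom.comp_apply, aInc_of]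
  have h2 : Function.Injective (SemidirectProduct.inl.comp (aInc (MZ ell) (fun i => (a i : ℤ)) hb) :
      ArtinGroup (pull (MZ ell) (fun i => (a i : ℤ)) hb) →* SD ell) :=
    SemidirectProduct.inl_injective.comp (aInc_injective (MZ ell) _ hb)
  rw [← h1] at h2
  exact Function.Injective.of_comp (f := Phi hne) h2

end emb

end integers

end Pool.Agent.Run7.H478.UG
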