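import Pool.Agent.Run7.h478.UG.Red

/-!
# Computability of the reductions
-/

set_option autoImplicit false

namespace Pool.Agent.Run7.H478.UG

theorem prim_pow : Primrec₂ ((· ^ ·) : ℕ → ℕ → ℕ) :=
  Primrec₂.unpaired'.1 Nat.Primrec.pow

theorem prim_label : Primrec label :=
  Primrec.ite (Primrec.eq.comp Primrec.id (Primrec.const 1)) (Primrec.const 0) Primrec.id

theorem prim_ofNat : Primrec (Denumerable.ofNat (List ℕ)) :=
  Primrec.option_some_iff.1 ((Primrec.decode (α := List ℕ)).of_eq fun _ =>
    Denumerable.decode_eq_ofNat _ _)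

theorem prim_kappa : Primrec kappa :=
  (Primrec.list_getD 0).comp (prim_ofNat.comp (Primrec.snd.comp Primrec.unpair))
    (Primrec.fst.comp Primrec.unpair)

section general

variable {α : Type*} [Primcodable α]

/-- unbounded search -/
theorem search {p : α → ℕ → Bool} (hp : Computable₂ p) (h : ∀ a, ∃ n, p a n = true) :
    ∃ f : α → ℕ, Computable f ∧ ∀ a, p a (f a) = true := by
  classical
  refine ⟨fun a => Nat.find (h a), ?_, fun a => Nat.find_spec (h a)⟩
  have h1 : Partrec fun a => Nat.rfind (fun n => (p a n : Part Bool)) := Partrec.rfind hp.partrec₂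
  refine h1.of_eq fun a => ?_
  apply Part.eq_some_iff.2
  rw [Nat.mem_rfind]
  refine ⟨?_, fun {m} hm => ?_⟩
  · rw [Nat.find_spec (h a)]
    exact Part.mem_some _
  · have h2 := Nat.find_min (h a) hm
    rw [Bool.not_eq_true] at h2
    rw [h2]
    exact Part.mem_some _

/-- bounded quantifiers -/
theorem comp_ball {n : α → ℕ} {g : α → ℕ → Bool} (hn : Computable n) (hg : Computable₂ g) :
    ∃ f : α → Bool, Computable f ∧ ∀ a, f a = true ↔ ∀ i < n a, g a i = true := by
  refine ⟨fun a => Nat.rec true (fun k IH => IH && g a k) (n a), ?_, fun a => ?_⟩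
  · refine Computable.nat_rec (f := n) (g := fun _ => true)
      (h := fun a (s : ℕ × Bool) => s.2 && g a s.1) hn (Computable.const true) ?_
    exact (Primrec.and.to_comp).comp (Computable.snd.comp Computable.snd)
      (hg.comp Computable.fst (Computable.fst.comp Computable.snd))
  · beta_reduce
    generalize n a = m
    induction m with
    | zero => simp
    | succ m ih =>
      show (Nat.rec true (fun k IH => IH && g a k) m && g a m) = true ↔ _
      rw [Bool.and_eq_true, ih]
      constructor
      · rintro ⟨h1, h2⟩ i hi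
        rcases Nat.lt_succ_iff_lt_or_eq.1 hi with hi | rfl
        · exact h1 i hi
        · exact h2
      · intro h
        exact ⟨fun i hi => h i (Nat.lt_succ_of_lt hi), h m (Nat.lt_succ_self m)⟩

/-- tables -/
theorem comp_map_range {n : α → ℕ} {g : α → ℕ → ℕ} (hn : Computable n) (hg : Computable₂ g) :
    Computable fun a => (List.range (n a)).map (g a) := by
  have h1 : Computable fun a => (Nat.rec ([] : List ℕ) (fun k IH => IH ++ [g a k]) (n a) : List ℕ) := by
    refine Computable.nat_rec (f := n) (g := fun _ => ([] : List ℕ))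
      (h := fun a (s : ℕ × List ℕ) => s.2 ++ [g a s.1]) hn (Computable.const []) ?_
    exact (Primrec.list_concat.to_comp).comp (Computable.snd.comp Computable.snd)
      (hg.comp Computable.fst (Computable.fst.comp Computable.snd))
  refine h1.of_eq fun a => ?_
  generalize n a = m
  induction m with
  | zero => rfl
  | succ m ih =>
    show (Nat.rec ([] : List ℕ) (fun k IH => IH ++ [g a k]) m : List ℕ) ++ [g a m] = _
    rw [ih, List.range_succ, List.map_append]
    rfl

end general

theorem prim_up : Primrec up :=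
  Primrec.list_map (f := fun p : ℕ => List.range p) (g := fun _ _ => ((true, true) : Bool × Bool))
    Primrec.list_range (Primrec.const _)

theorem prim_down : Primrec down :=
  Primrec.list_map (f := fun p : ℕ => List.range p) (g := fun _ _ => ((true, false) : Bool × Bool))
    Primrec.list_range (Primrec.const _)

theorem prim_piece : Primrec₂ fun (x : ℕ × List ℕ) (l : ℕ × Bool) => piece x.1 x.2 l := by
  have l1 : Primrec fun p : (ℕ × List ℕ) × (ℕ × Bool) => p.2.1 := Primrec.fst.comp Primrec.snd
  have l2 : Primrec fun p : (ℕ × List ℕ) × (ℕ × Bool) => p.2.2 := Primrec.snd.comp Primrec.snd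
  have c1 : Primrec fun p : (ℕ × List ℕ) × (ℕ × Bool) => p.1.1 := Primrec.fst.comp Primrec.fst
  have c2 : Primrec fun p : (ℕ × List ℕ) × (ℕ × Bool) => p.1.2 := Primrec.snd.comp Primrec.fst
  have pp : Primrec fun p : (ℕ × List ℕ) × (ℕ × Bool) => p.1.2.getD p.2.1 0 :=
    (Primrec.list_getD 0).comp c2 l1
  refine Primrec.ite (Primrec.nat_lt.comp l1 c1) ?_ (Primrec.const [])
  refine Primrec.list_append.comp (prim_up.comp pp) ?_
  exact Primrec.list_cons.comp (Primrec.pair (Primrec.const false) l2) (prim_down.comp pp)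

theorem prim_red1 : Primrec₂ red1 := by
  have c1 : Primrec fun p : (List ℕ × ((ℕ × List ℕ) × List (ℕ × Bool))) × (ℕ × Bool) =>
      p.1.2.1.1 := Primrec.fst.comp (Primrec.fst.comp (Primrec.snd.comp Primrec.fst))
  refine Primrec.list_flatMap (Primrec.snd.comp Primrec.snd) ?_
  exact prim_piece.comp (Primrec.pair c1 (Primrec.fst.comp Primrec.fst)) Primrec.snd

theorem prim_step : Primrec₂ step := by
  have s1 : Primrec fun p : (ℕ × List (ℕ × Bool)) × (Bool × Bool) => p.1.1 :=
    Primrec.fst.comp Primrec.fst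
  have s2 : Primrec fun p : (ℕ × List (ℕ × Bool)) × (Bool × Bool) => p.1.2 :=
    Primrec.snd.comp Primrec.fst
  have l1 : Primrec fun p : (ℕ × List (ℕ × Bool)) × (Bool × Bool) => p.2.1 :=
    Primrec.fst.comp Primrec.snd
  have l2 : Primrec fun p : (ℕ × List (ℕ × Bool)) × (Bool × Bool) => p.2.2 :=
    Primrec.snd.comp Primrec.snd
  refine Primrec.ite (Primrec.eq.comp l1 (Primrec.const true)) ?_ ?_
  · refine Primrec.ite (Primrec.eq.comp l2 (Primrec.const true)) ?_ ?_
    · exact Primrec.pair (Primrec.succ.comp s1) s2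
    · exact Primrec.pair (Primrec.nat_sub.comp s1 (Primrec.const 1)) s2
  · exact Primrec.pair s1 (Primrec.list_concat.comp s2 (Primrec.pair s1 l2))

theorem prim_scan : Primrec fun w : List (Bool × Bool) => w.foldl step (w.length, []) := by
  refine Primrec.list_foldl (f := fun w : List (Bool × Bool) => w)
    (g := fun w : List (Bool × Bool) => (w.length, ([] : List (ℕ × Bool))))
    (h := fun (_ : List (Bool × Bool)) (s : (ℕ × List (ℕ × Bool)) × (Bool × Bool)) =>
      step s.1 s.2) Primrec.id ?_ ?_
  · exact Primrec.pair Primrec.list_length (Primrec.const [])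
  · exact prim_step.comp (Primrec.fst.comp Primrec.snd) (Primrec.snd.comp Primrec.snd)

theorem comp_tab {idx : ℕ → ℕ} (h : Computable idx) : Computable (tab idx) := by
  refine comp_map_range (n := fun N : ℕ => N ^ 2)
    (g := fun (_ : ℕ) (k : ℕ) => idx (k.unpair.2 - k.unpair.1)) ?_ ?_
  · exact (prim_pow.comp Primrec.id (Primrec.const 2)).to_comp
  · have u : Primrec fun p : ℕ × ℕ => p.2.unpair := Primrec.unpair.comp Primrec.snd
    exact h.comp (Primrec.nat_sub.comp (Primrec.snd.comp u) (Primrec.fst.comp u)).to_comp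

theorem comp_red2 {idx : ℕ → ℕ} (h : Computable idx) : Computable (red2 idx) := by
  have hN : Computable fun w : List (Bool × Bool) => 2 * w.length + 1 :=
    (Primrec.succ.comp (Primrec.nat_mul.comp (Primrec.const 2) Primrec.list_length)).to_comp
  have hc : Computable fun w : List (Bool × Bool) =>
      decide ((w.foldl step (w.length, [])).1 = w.length) :=
    (Primrec.eq.comp (Primrec.fst.comp prim_scan) Primrec.list_length).decide.to_comp
  refine (Computable.cond hc (Computable.pair (Computable.pair hN ((comp_tab h).comp hN))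
    (Primrec.snd.comp prim_scan).to_comp) (Computable.const ((1, []), [(0, true)]))).of_eq
    fun w => ?_
  unfold red2
  split_ifs with h
  · simp [h]
  · simp [h]

section main

variable {lam ell : ℕ → ℕ}

theorem comp_idx (hl : Computable lam) (he : Computable ell) (hr : Rich lam ell) :
    ∃ idx : ℕ → ℕ, Computable idx ∧ ∀ d, 0 < d → lam (idx d) = ell d := by
  have h1 : Computable₂ fun (d n : ℕ) => (decide (d = 0) || decide (lam n = ell d)) := by
    refine (Primrec.or.to_comp).comp
      ((Primrec.eq (α := ℕ)).decide.to_comp.comp Computable.fst (Computable.const 0)) ?_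
    exact (Primrec.eq (α := ℕ)).decide.to_comp.comp (hl.comp Computable.snd)
      (he.comp Computable.fst)
  obtain ⟨f, hf, hf'⟩ := search h1 (fun d => by
    rcases Nat.eq_zero_or_pos d with rfl | hd
    · exact ⟨0, by simp⟩
    · obtain ⟨v, hv⟩ := hr.1 d hd
      exact ⟨v, by simp [hv]⟩)
  refine ⟨f, hf, fun d hd => ?_⟩
  have h2 := hf' d
  simpa [hd.ne'] using h2

theorem comp_pos (hl : Computable lam) (he : Computable ell) (hlam : ∀ v, lam v ≠ 1)
    (hr : Rich lam ell) :
    ∃ f : ℕ × List ℕ → ℕ, Computable f ∧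
      ∀ c, OkPos lam ell c (Denumerable.ofNat (List ℕ) (f c)) := by
  -- the innermost test
  have h1 : Computable₂ fun (x : ((ℕ × List ℕ) × ℕ) × ℕ) (i : ℕ) =>
      (decide ((Denumerable.ofNat (List ℕ) x.1.2).getD i 0 <
        (Denumerable.ofNat (List ℕ) x.1.2).getD x.2 0) &&
      decide (ell ((Denumerable.ofNat (List ℕ) x.1.2).getD x.2 0 -
        (Denumerable.ofNat (List ℕ) x.1.2).getD i 0) =
          label (lam (x.1.1.2.getD (Nat.pair i x.2) 0)))) := by
    have hP : Primrec fun y : (((ℕ × List ℕ) × ℕ) × ℕ) × ℕ =>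
        Denumerable.ofNat (List ℕ) y.1.1.2 :=
      prim_ofNat.comp (Primrec.snd.comp (Primrec.fst.comp Primrec.fst))
    have hi : Primrec fun y : (((ℕ × List ℕ) × ℕ) × ℕ) × ℕ =>
        (Denumerable.ofNat (List ℕ) y.1.1.2).getD y.2 0 :=
      (Primrec.list_getD 0).comp hP Primrec.snd
    have hj : Primrec fun y : (((ℕ × List ℕ) × ℕ) × ℕ) × ℕ =>
        (Denumerable.ofNat (List ℕ) y.1.1.2).getD y.1.2 0 :=
      (Primrec.list_getD 0).comp hP (Primrec.snd.comp Primrec.fst)
    have hL : Primrec fun y : (((ℕ × List ℕ) × ℕ) × ℕ) × ℕ =>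
        y.1.1.1.2.getD (Nat.pair y.2 y.1.2) 0 :=
      (Primrec.list_getD 0).comp
        (Primrec.snd.comp (Primrec.fst.comp (Primrec.fst.comp Primrec.fst)))
        (Primrec₂.natPair.comp Primrec.snd (Primrec.snd.comp Primrec.fst))
    refine (Primrec.and.to_comp).comp ?_ ?_
    · exact (Primrec.nat_lt.decide.comp hi hj).to_comp
    · exact (Primrec.eq (α := ℕ)).decide.to_comp.comp
        (he.comp (Primrec.nat_sub.comp hj hi).to_comp)
        (prim_label.to_comp.comp (hl.comp hL.to_comp))
  obtain ⟨g1, hg1, hg1'⟩ := comp_ball (n := fun x : ((ℕ × List ℕ) × ℕ) × ℕ => x.2)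
    Computable.snd h1
  obtain ⟨g2, hg2, hg2'⟩ := comp_ball (n := fun x : (ℕ × List ℕ) × ℕ => x.1.1)
    (g := fun x j => g1 (x, j)) (Computable.fst.comp Computable.fst) hg1
  have key : ∀ c n, g2 (c, n) = true ↔ OkPos lam ell c (Denumerable.ofNat (List ℕ) n) := by
    intro c n
    rw [hg2']
    unfold OkPos
    refine forall₂_congr fun j _ => ?_
    rw [hg1']
    refine forall₂_congr fun i _ => ?_
    simp only [Bool.and_eq_true, decide_eq_true_eq]
  obtain ⟨f, hf, hf'⟩ := search (p := fun c n => g2 (c, n)) hg2 (fun c => by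
    obtain ⟨a, ha⟩ := exists_pos hr (fun i j => lam (c.2.getD (Nat.pair i j) 0))
      (fun i j => ⟨_, rfl⟩)
    refine ⟨Encodable.encode ((List.range c.1).map a), (key _ _).2 ?_⟩
    rw [Denumerable.ofNat_encode]
    have hg : ∀ i < c.1, ((List.range c.1).map a).getD i 0 = a i := by
      intro i hi
      rw [List.getD_eq_getElem?_getD, List.getElem?_map, List.getElem?_range hi]
      rfl
    intro j hj i hi
    rw [hg j hj, hg i (hi.trans hj)]
    obtain ⟨h2, h3⟩ := ha i j hi
    refine ⟨h2, ?_⟩
    rw [h3, label_of_ne (hlam _)])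
  exact ⟨f, hf, fun c => (key _ _).1 (hf' c)⟩

theorem many_one (hl : Computable lam) (he : Computable ell) (hlam : ∀ v, lam v ≠ 1)
    (hr : Rich lam ell) : ManyOneEquiv (UniformWordProblem lam) (WordProblemU ell) := by
  have hne : ∀ d, 0 < d → ell d ≠ 1 := fun d hd => hr.ne_one hlam hd
  constructor
  · obtain ⟨f, hf, hf'⟩ := comp_pos hl he hlam hr
    refine ⟨fun q => red1 (Denumerable.ofNat (List ℕ) (f q.1)) q, ?_, fun q => ?_⟩
    · exact prim_red1.to_comp.comp (prim_ofNat.to_comp.comp (hf.comp Computable.fst)) Computable.id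
    · exact red1_iff hne q (hf' q.1)
  · obtain ⟨idx, hi, hi'⟩ := comp_idx hl he hr
    exact ⟨red2 idx, comp_red2 hi, fun w => red2_iff hne hi' w⟩

end main

end Pool.Agent.Run7.H478.UG
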