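import Pool.Agent.Run7.h478.UG.Grp

/-!
# The two reductions
-/

set_option autoImplicit false

namespace Pool.Agent.Run7.H478.UG

open Pool.Agent.K7.H20.AW Pool.Agent.K7.H87.FJ6 Pool.Agent.Helper741

variable {lam ell : ℕ → ℕ}

variable (ell) in
/-- the value of a word in `U` -/
def valU (w : List (Bool × Bool)) : U ell := (w.map (letterU ell)).prod

theorem valU_nil : valU ell [] = 1 := rfl

theorem valU_cons (l : Bool × Bool) (w : List (Bool × Bool)) :
    valU ell (l :: w) = letterU ell l * valU ell w := by
  unfold valU
  rw [List.map_cons, List.prod_cons]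

theorem valU_append (v w : List (Bool × Bool)) : valU ell (v ++ w) = valU ell v * valU ell w := by
  unfold valU
  rw [List.map_append, List.prod_append]

variable (lam ell) in
/-- the list `P` is a list of positions for the matrix with the code `c` -/
def OkPos (c : ℕ × List ℕ) (P : List ℕ) : Prop :=
  ∀ j < c.1, ∀ i < j, P.getD i 0 < P.getD j 0 ∧
    ell (P.getD j 0 - P.getD i 0) = label (lam (c.2.getD (Nat.pair i j) 0))

theorem OkPos.inj {c : ℕ × List ℕ} {P : List ℕ} (h : OkPos lam ell c P) :
    Function.Injective fun i : Fin c.1 => P.getD i 0 := by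
  intro i j hij
  have hij' : P.getD i 0 = P.getD j 0 := hij
  rcases lt_trichotomy (i : ℕ) j with h1 | h1 | h1
  · exact absurd hij' (h j j.2 i h1).1.ne
  · exact Fin.ext h1
  · exact absurd hij' (h i i.2 j h1).1.ne'

theorem OkPos.lab {c : ℕ × List ℕ} {P : List ℕ} (h : OkPos lam ell c P) (i j : Fin c.1)
    (hij : i ≠ j) :
    matrixOf lam c i j = ell (((P.getD i 0 : ℕ) : ℤ) - (P.getD j 0 : ℕ)).natAbs := by
  rw [matrixOf_ne hij]
  unfold entry
  rcases lt_or_gt_of_ne (fun h' => hij (Fin.ext h') : (i : ℕ) ≠ j) with h1 | h1
  · obtain ⟨h2, h3⟩ := h j j.2 i h1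
    rw [min_eq_left h1.le, max_eq_right h1.le, ← h3]
    congr 1
    omega
  · obtain ⟨h2, h3⟩ := h i i.2 j h1
    rw [min_eq_right h1.le, max_eq_left h1.le, ← h3]
    congr 1
    omega

/-- the embedding for the matrix with the code `c` -/
def embC {c : ℕ × List ℕ} {P : List ℕ} (h : OkPos lam ell c P) :
    ArtinGroup (matrixOf lam c) →* U ell :=
  emb (matrixOf lam c) (fun i => P.getD i 0) h.inj h.lab

theorem embC_of {c : ℕ × List ℕ} {P : List ℕ} (h : OkPos lam ell c P) (i : Fin c.1) :
    embC h (PresentedGroup.of i) = gU ell (P.getD i 0) := emb_of _ _ _ _ _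

theorem embC_injective (hne : ∀ d, 0 < d → ell d ≠ 1) {c : ℕ × List ℕ} {P : List ℕ}
    (h : OkPos lam ell c P) : Function.Injective (embC h) :=
  emb_injective _ _ _ _ hne

/-- `t ^ p` as a word -/
def up (p : ℕ) : List (Bool × Bool) := (List.range p).map fun _ => (true, true)

/-- `t ^ (-p)` as a word -/
def down (p : ℕ) : List (Bool × Bool) := (List.range p).map fun _ => (true, false)

theorem valU_up (p : ℕ) : valU ell (up p) = PresentedGroup.of true ^ p := by
  induction p with
  | zero => rw [pow_zero]; rfl
  | succ p ih =>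
    have h : up (p + 1) = up p ++ [(true, true)] := by
      unfold up
      rw [List.range_succ, List.map_append]
      rfl
    rw [h, valU_append, ih, pow_succ, valU_cons, valU_nil, mul_one]
    rfl

theorem valU_down (p : ℕ) : valU ell (down p) = (PresentedGroup.of true ^ p)⁻¹ := by
  induction p with
  | zero => rw [pow_zero, inv_one]; rfl
  | succ p ih =>
    have h : down (p + 1) = down p ++ [(true, false)] := by
      unfold down
      rw [List.range_succ, List.map_append]
      rfl
    rw [h, valU_append, ih, pow_succ', mul_inv_rev, valU_cons, valU_nil, mul_one]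
    rfl

/-- the word for one letter -/
def piece (n : ℕ) (P : List ℕ) (l : ℕ × Bool) : List (Bool × Bool) :=
  if l.1 < n then up (P.getD l.1 0) ++ ((false, l.2) :: down (P.getD l.1 0)) else []

/-- the first reduction -/
def red1 (P : List ℕ) (q : (ℕ × List ℕ) × List (ℕ × Bool)) : List (Bool × Bool) :=
  q.2.flatMap (piece q.1.1 P)

theorem valU_piece {c : ℕ × List ℕ} {P : List ℕ} (hP : OkPos lam ell c P) (l : ℕ × Bool) :
    valU ell (piece c.1 P l) = embC hP (letter lam c l) := by
  unfold piece letter
  split_ifs with h h2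
  · rw [embC_of, valU_append, valU_cons, valU_up, valU_down]
    unfold letterU gU
    rw [if_pos h2, mul_assoc]
  · rw [map_inv, embC_of, valU_append, valU_cons, valU_up, valU_down]
    unfold letterU gU
    rw [if_neg h2]
    group
  · rw [map_one, valU_nil]

theorem valU_red1 {c : ℕ × List ℕ} {P : List ℕ} (hP : OkPos lam ell c P) (w : List (ℕ × Bool)) :
    valU ell (red1 P (c, w)) = embC hP (w.map (letter lam c)).prod := by
  unfold red1
  induction w with
  | nil => rw [List.map_nil, List.prod_nil, map_one]; rfl
  | cons l w ih =>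
    rw [List.map_cons, List.prod_cons, map_mul, ← ih, ← valU_piece, ← valU_append]
    rfl

theorem red1_iff (hne : ∀ d, 0 < d → ell d ≠ 1) (q : (ℕ × List ℕ) × List (ℕ × Bool))
    {P : List ℕ} (hP : OkPos lam ell q.1 P) :
    UniformWordProblem lam q ↔ WordProblemU ell (red1 P q) := by
  obtain ⟨c, w⟩ := q
  show (w.map (letter lam c)).prod = 1 ↔ valU ell (red1 P (c, w)) = 1
  rw [valU_red1 hP, map_eq_one_iff _ (embC_injective hne hP)]

/-- one step of the scan -/
def step (s : ℕ × List (ℕ × Bool)) (l : Bool × Bool) : ℕ × List (ℕ × Bool) :=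
  if l.1 then (if l.2 then (s.1 + 1, s.2) else (s.1 - 1, s.2)) else (s.1, s.2 ++ [(s.1, l.2)])

variable (ell) in
/-- the letter of `U` -/
def gl (l : ℕ × Bool) : U ell := if l.2 then gU ell l.1 else (gU ell l.1)⁻¹

variable (ell) in
/-- the value in `U` of a word in the conjugates -/
def valG (o : List (ℕ × Bool)) : U ell := (o.map (gl ell)).prod

theorem step_one {s : ℕ × List (ℕ × Bool)} (hs : 0 < s.1) (l : Bool × Bool) :
    valG ell (step s l).2 * (PresentedGroup.of true : U ell) ^ (step s l).1 =
      valG ell s.2 * (PresentedGroup.of true : U ell) ^ s.1 * letterU ell l := by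
  obtain ⟨p, o⟩ := s
  obtain ⟨x, b⟩ := l
  rcases x with _ | _
  · have h1 : step (p, o) (false, b) = (p, o ++ [(p, b)]) := rfl
    have h2 : valG ell (o ++ [(p, b)]) = valG ell o * gl ell (p, b) := by
      unfold valG
      rw [List.map_append, List.prod_append, List.map_singleton, List.prod_singleton]
    rw [h1]
    show valG ell (o ++ [(p, b)]) * _ ^ p = valG ell o * _ ^ p * letterU ell (false, b)
    rw [h2]
    rcases b with _ | _
    · show valG ell o * (gU ell p)⁻¹ * (PresentedGroup.of true : U ell) ^ p =
        valG ell o * (PresentedGroup.of true : U ell) ^ p * (PresentedGroup.of false)⁻¹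
      unfold gU
      group
    · show valG ell o * gU ell p * (PresentedGroup.of true : U ell) ^ p =
        valG ell o * (PresentedGroup.of true : U ell) ^ p * (PresentedGroup.of false)
      unfold gU
      group
  · rcases b with _ | _
    · obtain ⟨p, rfl⟩ := Nat.exists_eq_add_of_lt hs
      show valG ell o * (PresentedGroup.of true : U ell) ^ (0 + p + 1 - 1) =
        valG ell o * (PresentedGroup.of true : U ell) ^ (0 + p + 1) * (PresentedGroup.of true)⁻¹
      rw [show 0 + p + 1 - 1 = p by omega, show 0 + p + 1 = p + 1 by omega, pow_succ,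
        mul_assoc, mul_inv_cancel_right]
    · show valG ell o * (PresentedGroup.of true : U ell) ^ (p + 1) =
        valG ell o * (PresentedGroup.of true : U ell) ^ p * (PresentedGroup.of true)
      rw [pow_succ, mul_assoc]

theorem step_fst (s : ℕ × List (ℕ × Bool)) (l : Bool × Bool) :
    s.1 ≤ (step s l).1 + 1 ∧ (step s l).1 ≤ s.1 + 1 := by
  unfold step
  split_ifs <;> simp <;> omega

theorem step_inv (w : List (Bool × Bool)) : ∀ s : ℕ × List (ℕ × Bool), w.length ≤ s.1 →
    valG ell (w.foldl step s).2 * (PresentedGroup.of true : U ell) ^ (w.foldl step s).1 =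
      valG ell s.2 * (PresentedGroup.of true : U ell) ^ s.1 * valU ell w := by
  induction w with
  | nil => intro s _; rw [valU_nil, mul_one]; rfl
  | cons l w ih =>
    intro s hs
    rw [List.length_cons] at hs
    have h1 := step_fst s l
    rw [List.foldl_cons, ih (step s l) (by omega), step_one (by omega), valU_cons, mul_assoc]

theorem step_bound (N : ℕ) (w : List (Bool × Bool)) : ∀ s : ℕ × List (ℕ × Bool),
    s.1 + w.length < N → (∀ l ∈ s.2, l.1 < N) → ∀ l ∈ (w.foldl step s).2, l.1 < N := by
  induction w with
  | nil => intro s _ h; exact h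
  | cons l w ih =>
    intro s hs h
    rw [List.length_cons] at hs
    have h1 := step_fst s l
    rw [List.foldl_cons]
    apply ih (step s l) (by omega)
    intro l' hl'
    unfold step at hl'
    split_ifs at hl' with h2 h3
    · exact h l' hl'
    · exact h l' hl'
    · rcases List.mem_append.1 hl' with hl' | hl'
      · exact h l' hl'
      · rw [List.mem_singleton] at hl'
        rw [hl']
        show s.1 < N
        omega

/-- the exponent sum of `t` -/
def expo : U ell →* Multiplicative ℤ :=
  uLift (fun b => if b then Multiplicative.ofAdd 1 else 1) (fun d _ => by simp)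

theorem expo_true : expo (ell := ell) (PresentedGroup.of true) = Multiplicative.ofAdd 1 :=
  uLift_of _ _ _

theorem expo_false : expo (ell := ell) (PresentedGroup.of false) = 1 := uLift_of _ _ _

theorem expo_gU (p : ℕ) : expo (gU ell p) = 1 := by
  unfold gU
  rw [map_mul, map_mul, expo_false, mul_one, ← map_mul, mul_inv_cancel, map_one]

theorem expo_valG (o : List (ℕ × Bool)) : expo (valG ell o) = 1 := by
  unfold valG
  induction o with
  | nil => exact map_one _
  | cons l o ih =>
    rw [List.map_cons, List.prod_cons, map_mul, ih, mul_one]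
    unfold gl
    split_ifs
    · exact expo_gU _
    · rw [map_inv, expo_gU, inv_one]

/-- the list for the matrix with the entries `ell |i - j|` -/
def tab (idx : ℕ → ℕ) (N : ℕ) : List ℕ :=
  (List.range (N ^ 2)).map fun k => idx (k.unpair.2 - k.unpair.1)

theorem entry_tab (hne : ∀ d, 0 < d → ell d ≠ 1) {idx : ℕ → ℕ}
    (hidx : ∀ d, 0 < d → lam (idx d) = ell d) {N i j : ℕ} (hij : i ≠ j) (hi : i < N) (hj : j < N) :
    entry lam (tab idx N) i j = ell ((i : ℤ) - j).natAbs := by
  have h1 : max i j - min i j = ((i : ℤ) - j).natAbs := by omega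
  have h2 : 0 < ((i : ℤ) - j).natAbs := by omega
  unfold entry tab
  rw [List.getD_eq_getElem?_getD, List.getElem?_map, List.getElem?_range
    (pair_lt_sq (lt_of_le_of_lt (min_le_left i j) hi) (max_lt hi hj))]
  simp only [Option.map_some, Option.getD_some, Nat.unpair_pair]
  rw [h1, hidx _ h2, label_of_ne (hne _ h2)]

section second

variable (hne : ∀ d, 0 < d → ell d ≠ 1) {idx : ℕ → ℕ} (hidx : ∀ d, 0 < d → lam (idx d) = ell d)

/-- the embedding of the Artin group with the labels `ell |i - j|` -/
def embT (N : ℕ) : ArtinGroup (matrixOf lam (N, tab idx N)) →* U ell :=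
  emb (matrixOf lam (N, tab idx N)) (fun i => (i : ℕ)) Fin.val_injective
    (fun i j h => by
      rw [matrixOf_ne h]
      exact entry_tab hne hidx (fun h' => h (Fin.ext h')) i.2 j.2)

theorem embT_letter {N : ℕ} {l : ℕ × Bool} (h : l.1 < N) :
    embT hne hidx N (letter lam (N, tab idx N) l) = gl ell l := by
  unfold letter gl
  rw [dif_pos h]
  split_ifs with h2
  · exact emb_of _ _ _ _ _
  · rw [map_inv]
    congr 1
    exact emb_of _ _ _ _ _

theorem embT_prod {N : ℕ} {o : List (ℕ × Bool)} (h : ∀ l ∈ o, l.1 < N) :
    embT hne hidx N (o.map (letter lam (N, tab idx N))).prod = valG ell o := by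
  unfold valG
  induction o with
  | nil => exact map_one _
  | cons l o ih =>
    rw [List.map_cons, List.prod_cons, map_mul, ih (fun l' hl' => h l' (by simp [hl'])),
      embT_letter hne hidx (h l (by simp)), List.map_cons, List.prod_cons]

end second

/-- the second reduction -/
def red2 (idx : ℕ → ℕ) (w : List (Bool × Bool)) : (ℕ × List ℕ) × List (ℕ × Bool) :=
  if (w.foldl step (w.length, [])).1 = w.length then
    ((2 * w.length + 1, tab idx (2 * w.length + 1)), (w.foldl step (w.length, [])).2)
  else ((1, []), [(0, true)])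

theorem not_trivial (lam : ℕ → ℕ) : ¬ UniformWordProblem lam ((1, []), [(0, true)]) := by
  intro h
  have h2 : (PresentedGroup.of ⟨0, Nat.one_pos⟩ : ArtinGroup (matrixOf lam (1, []))) = 1 := by
    have h' : ([(0, true)].map (letter lam (1, []))).prod = 1 := h
    rw [List.map_singleton, List.prod_singleton] at h'
    exact h'
  have h3 := congrArg (aLift (matrixOf lam (1, [])) (fun _ => Multiplicative.ofAdd (1 : ℤ))
    (fun _ _ => rfl)) h2
  rw [aLift_of] at h3
  have h4 := h3.trans (map_one _)
  exact one_ne_zero (α := ℤ) (congrArg Multiplicative.toAdd h4)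

theorem red2_iff (hne : ∀ d, 0 < d → ell d ≠ 1) {idx : ℕ → ℕ}
    (hidx : ∀ d, 0 < d → lam (idx d) = ell d) (w : List (Bool × Bool)) :
    WordProblemU ell w ↔ UniformWordProblem lam (red2 idx w) := by
  show valU ell w = 1 ↔ _
  have h1 := step_inv (ell := ell) w (w.length, []) le_rfl
  have h0 : valG ell (([] : List (ℕ × Bool))) = 1 := rfl
  simp only [h0, one_mul] at h1
  unfold red2
  split_ifs with h
  · have h2 : ∀ l ∈ (w.foldl step (w.length, [])).2, l.1 < 2 * w.length + 1 :=
      step_bound (2 * w.length + 1) w (w.length, []) (by show w.length + w.length < _; omega)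
        (by simp)
    show _ ↔ (((w.foldl step (w.length, [])).2).map
      (letter lam (2 * w.length + 1, tab idx (2 * w.length + 1)))).prod = 1
    have h3 : Function.Injective (embT hne hidx (2 * w.length + 1)) := emb_injective _ _ _ _ hne
    rw [← map_eq_one_iff _ h3, embT_prod hne hidx h2]
    rw [h] at h1
    constructor
    · intro h4
      rw [h4, mul_one] at h1
      exact mul_eq_right.1 h1
    · intro h4
      rw [h4, one_mul] at h1
      exact (mul_eq_left.1 h1.symm)
  · constructor
    · intro h4
      exfalso
      apply h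
      rw [h4, mul_one] at h1
      have h5 := congrArg expo h1
      rw [map_mul, expo_valG, one_mul, map_pow, map_pow, expo_true] at h5
      have h6 := congrArg Multiplicative.toAdd h5
      simpa using h6
    · intro h4
      exact absurd h4 (not_trivial lam)

end Pool.Agent.Run7.H478.UG
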